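import Pool.Agent.U6.VE.Stm

/-! Project VE, package PH3 (helper165): Fubini assembly of the volume bound. -/

set_option autoImplicit false

namespace Pool.Agent.U165.VE

open MeasureTheory Pool.Agent.U6.VE
open scoped BigOperators ENNReal NNReal

section split

variable {k w : ℕ}

/-- the complement of the range -/
abbrev Kc (B : Fin k ↪ Fin w) : Type := ↥((Set.range B)ᶜ : Set (Fin w))

open Classical in
/-- `Fin w` is the range and its complement -/
noncomputable def eqv (B : Fin k ↪ Fin w) : Fin k ⊕ Kc B ≃ Fin w :=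
  (Equiv.sumCongr (Equiv.ofInjective B B.injective) (Equiv.refl _)).trans
    (Equiv.Set.sumCompl (Set.range B))

theorem eqv_inl (B : Fin k ↪ Fin w) (i : Fin k) : eqv B (Sum.inl i) = B i := by
  simp [eqv]

theorem eqv_inr (B : Fin k ↪ Fin w) (i : Kc B) : eqv B (Sum.inr i) = i.1 := by
  simp [eqv]

/-- the splitting of the variables -/
noncomputable def psi (B : Fin k ↪ Fin w) : ((Fin k → ℝ) × (Kc B → ℝ)) ≃ᵐ (Fin w → ℝ) :=
  (MeasurableEquiv.sumPiEquivProdPi (fun _ : Fin k ⊕ Kc B => ℝ)).symm.trans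
    (MeasurableEquiv.piCongrLeft (fun _ => ℝ) (eqv B))

theorem psi_mp (B : Fin k ↪ Fin w) : MeasurePreserving (psi B) volume volume :=
  (volume_measurePreserving_sumPiEquivProdPi_symm (fun _ : Fin k ⊕ Kc B => ℝ)).trans
    (volume_measurePreserving_piCongrLeft (fun _ => ℝ) (eqv B))

theorem psi_apply (B : Fin k ↪ Fin w) (x : Fin k → ℝ) (y : Kc B → ℝ) (c : Fin k ⊕ Kc B) :
    psi B (x, y) (eqv B c) = Sum.elim x y c := by
  unfold psi
  rw [MeasurableEquiv.trans_apply, MeasurableEquiv.coe_piCongrLeft,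
    Equiv.piCongrLeft_apply_apply, MeasurableEquiv.coe_sumPiEquivProdPi_symm]
  cases c <;> rfl

theorem psi_inl (B : Fin k ↪ Fin w) (x : Fin k → ℝ) (y : Kc B → ℝ) (i : Fin k) :
    psi B (x, y) (B i) = x i := by
  have := psi_apply B x y (Sum.inl i)
  rwa [eqv_inl] at this

theorem psi_inr (B : Fin k ↪ Fin w) (x : Fin k → ℝ) (y : Kc B → ℝ) (i : Kc B) :
    psi B (x, y) i.1 = y i := by
  have := psi_apply B x y (Sum.inr i)
  rwa [eqv_inr] at this

theorem psi_sum (B : Fin k ↪ Fin w) (x : Fin k → ℝ) (y : Kc B → ℝ) (f : ℝ → ℝ) :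
    ∑ i, f (psi B (x, y) i) = ∑ i, f (x i) + ∑ c, f (y c) := by
  rw [← Equiv.sum_comp (eqv B), Fintype.sum_sum_type]
  congr 1
  · exact Finset.sum_congr rfl fun i _ => by rw [psi_apply]; rfl
  · exact Finset.sum_congr rfl fun i _ => by rw [psi_apply]; rfl

theorem card_Kc (B : Fin k ↪ Fin w) : Fintype.card (Kc B) = w - k := by
  have h := Fintype.card_congr (eqv B)
  rw [Fintype.card_sum, Fintype.card_fin, Fintype.card_fin] at h
  omega

end split

theorem vd_cont (k : ℕ) : Continuous (fun t : Fin k → ℝ => vd t) := by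
  unfold vd
  fun_prop

/-- the slices -/
theorem slice (h1 : S_PH1) {k w : ℕ} (B : Fin k ↪ Fin w) (N : ℕ) (m : ℝ) (hm : 0 < m)
    (u : Fin k → ℝ) :
    volume {t : Fin w → ℝ | (∀ i, t i ∈ Set.Icc (1 : ℝ) (N + 1)) ∧ m ≤ vd (fun i => t (B i)) ∧
      ∀ j : Fin k, |∑ i, t i ^ (j.val + 1) - u j| < 1} ≤
    (N : ℝ≥0∞) ^ (w - k) * ENNReal.ofReal (2 ^ k / m) := by
  classical
  set S : Set (Fin w → ℝ) := {t : Fin w → ℝ | (∀ i, t i ∈ Set.Icc (1 : ℝ) (N + 1)) ∧
    m ≤ vd (fun i => t (B i)) ∧ ∀ j : Fin k, |∑ i, t i ^ (j.val + 1) - u j| < 1} with hS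
  have hSm : MeasurableSet S := by
    have e1 : MeasurableSet {t : Fin w → ℝ | ∀ i, t i ∈ Set.Icc (1 : ℝ) (N + 1)} := by
      rw [Set.setOf_forall]
      exact MeasurableSet.iInter fun i => measurableSet_Icc.preimage (measurable_pi_apply i)
    have e2 : MeasurableSet {t : Fin w → ℝ | m ≤ vd (fun i => t (B i))} := by
      refine measurableSet_le measurable_const ?_
      exact ((vd_cont k).comp (by fun_prop : Continuous fun (t : Fin w → ℝ) (i : Fin k) =>
        t (B i))).measurable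
    have e3 : MeasurableSet {t : Fin w → ℝ | ∀ j : Fin k, |∑ i, t i ^ (j.val + 1) - u j| < 1} := by
      rw [Set.setOf_forall]
      refine MeasurableSet.iInter fun j => measurableSet_lt ?_ measurable_const
      exact (by fun_prop : Continuous fun t : Fin w → ℝ =>
        |∑ i, t i ^ (j.val + 1) - u j|).measurable
    exact e1.inter (e2.inter e3)
  rw [← (psi_mp B).measure_preimage_equiv S]
  have hpm : MeasurableSet (psi B ⁻¹' S) := (psi B).measurable hSm
  change (volume.prod volume) (psi B ⁻¹' S) ≤ _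
  rw [Measure.prod_apply_symm hpm]
  set J : Set (Kc B → ℝ) := Set.Icc (fun _ => (1 : ℝ)) (fun _ => (N : ℝ) + 1) with hJ
  have hJv : volume J = (N : ℝ≥0∞) ^ (w - k) := by
    rw [hJ, Real.volume_Icc_pi]
    simp only [Finset.prod_const, Finset.card_univ]
    rw [card_Kc]
    congr 1
    rw [add_sub_cancel_right, ENNReal.ofReal_natCast]
  have hpt : ∀ y : Kc B → ℝ, volume ((fun x : Fin k → ℝ => (x, y)) ⁻¹' (psi B ⁻¹' S)) ≤
      J.indicator (fun _ => ENNReal.ofReal (2 ^ k / m)) y := by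
    intro y
    by_cases hy : y ∈ J
    · rw [Set.indicator_of_mem hy]
      refine le_trans (measure_mono ?_) (h1 k m (fun j => u j - ∑ c, y c ^ (j.val + 1)) hm)
      intro x hx
      obtain ⟨-, hx2, hx3⟩ := hx
      refine ⟨?_, fun j => ?_⟩
      · have : (fun i => psi B (x, y) (B i)) = x := funext fun i => psi_inl B x y i
        rw [this] at hx2
        exact hx2
      · have h4 := hx3 j
        rw [psi_sum B x y (fun z => z ^ (j.val + 1))] at h4
        have h5 : ∑ i, x i ^ (j.val + 1) - (u j - ∑ c, y c ^ (j.val + 1)) =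
            ∑ i, x i ^ (j.val + 1) + ∑ c, y c ^ (j.val + 1) - u j := by ring
        rw [h5]
        exact h4
    · rw [Set.indicator_of_notMem hy]
      refine le_of_eq ?_
      have : ((fun x : Fin k → ℝ => (x, y)) ⁻¹' (psi B ⁻¹' S)) = ∅ := by
        rw [Set.eq_empty_iff_forall_notMem]
        rintro x ⟨hx1, -, -⟩
        apply hy
        rw [hJ]
        constructor
        · intro c
          have := (hx1 c.1).1
          rwa [psi_inr] at this
        · intro c
          have := (hx1 c.1).2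
          rwa [psi_inr] at this
      rw [this, measure_empty]
  refine (lintegral_mono hpt).trans ?_
  have hJm : MeasurableSet J := measurableSet_Icc
  rw [lintegral_indicator hJm, setLIntegral_const, hJv, mul_comm]

/-- the pairs -/
def EE (k w N : ℕ) : Set ((Fin w → ℝ) × (Fin w → ℝ)) :=
  {p | (∀ i, p.1 i ∈ Set.Icc (1 : ℝ) (N + 1)) ∧ (∀ i, p.2 i ∈ Set.Icc (1 : ℝ) (N + 1)) ∧
      ∀ j : Fin k, |∑ i, p.1 i ^ (j.val + 1) - ∑ i, p.2 i ^ (j.val + 1)| < 1}

theorem EE_meas (k w N : ℕ) : MeasurableSet (EE k w N) := by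
  have e1 : MeasurableSet {p : (Fin w → ℝ) × (Fin w → ℝ) |
      ∀ i, p.1 i ∈ Set.Icc (1 : ℝ) (N + 1)} := by
    rw [Set.setOf_forall]
    exact MeasurableSet.iInter fun i => measurableSet_Icc.preimage
      ((measurable_pi_apply i).comp measurable_fst)
  have e2 : MeasurableSet {p : (Fin w → ℝ) × (Fin w → ℝ) |
      ∀ i, p.2 i ∈ Set.Icc (1 : ℝ) (N + 1)} := by
    rw [Set.setOf_forall]
    exact MeasurableSet.iInter fun i => measurableSet_Icc.preimage
      ((measurable_pi_apply i).comp measurable_snd)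
  have e3 : MeasurableSet {p : (Fin w → ℝ) × (Fin w → ℝ) |
      ∀ j : Fin k, |∑ i, p.1 i ^ (j.val + 1) - ∑ i, p.2 i ^ (j.val + 1)| < 1} := by
    rw [Set.setOf_forall]
    refine MeasurableSet.iInter fun j => measurableSet_lt ?_ measurable_const
    exact (by fun_prop : Continuous fun p : (Fin w → ℝ) × (Fin w → ℝ) =>
      |∑ i, p.1 i ^ (j.val + 1) - ∑ i, p.2 i ^ (j.val + 1)|).measurable
  exact e1.inter (e2.inter e3)

theorem vs_meas {k w : ℕ} [Nonempty (Fin k ↪ Fin w)] :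
    Measurable (fun t : Fin w → ℝ => vs k t) := by
  refine measurable_of_Iic fun c => ?_
  have h : ((fun t : Fin w → ℝ => vs k t) ⁻¹' Set.Iic c) =
      ⋂ B : Fin k ↪ Fin w, {t | vd (fun i => t (B i)) ≤ c} := by
    ext t
    rw [Set.mem_preimage, Set.mem_Iic, Set.mem_iInter]
    exact ciSup_le_iff (Finite.bddAbove_range _)
  rw [h]
  refine MeasurableSet.iInter fun B => measurableSet_le ?_ measurable_const
  exact ((vd_cont k).comp (by fun_prop : Continuous fun (t : Fin w → ℝ) (i : Fin k) =>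
        t (B i))).measurable

/-- the pairs for which `B` gives a large value -/
def EB {k w : ℕ} (B : Fin k ↪ Fin w) (N : ℕ) : Set ((Fin w → ℝ) × (Fin w → ℝ)) :=
  EE k w N ∩ {p | vs k p.2 ≤ vd (fun i => p.1 (B i))}

theorem EB_meas {k w : ℕ} (B : Fin k ↪ Fin w) (N : ℕ) : MeasurableSet (EB B N) := by
  haveI : Nonempty (Fin k ↪ Fin w) := ⟨B⟩
  refine (EE_meas k w N).inter (measurableSet_le (vs_meas.comp measurable_snd) ?_)
  exact ((vd_cont k).comp (by fun_prop : Continuous fun (t : (Fin w → ℝ) × (Fin w → ℝ))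
    (i : Fin k) => t.1 (B i))).measurable

theorem vd_nonneg {k : ℕ} (t : Fin k → ℝ) : 0 ≤ vd t :=
  Finset.prod_nonneg fun i _ => Finset.prod_nonneg fun j _ => abs_nonneg _

theorem vs_nonneg {k w : ℕ} (t : Fin w → ℝ) : 0 ≤ vs k t :=
  Real.iSup_nonneg fun B => vd_nonneg _

/-- the volume of `EB` -/
theorem EB_vol (h1 : S_PH1) {k w : ℕ} (B : Fin k ↪ Fin w) (N : ℕ) (hN : 1 ≤ N) :
    volume (EB B N) ≤ (N : ℝ≥0∞) ^ (w - k) * 2 ^ k *
      ∫⁻ t in (Set.Icc (fun _ => (1 : ℝ)) (fun _ => (N : ℝ) + 1) : Set (Fin w → ℝ)),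
        (ENNReal.ofReal (vs k t))⁻¹ := by
  have hN0 : (N : ℝ≥0∞) ^ (w - k) * 2 ^ k ≠ 0 := by
    have : (N : ℝ≥0∞) ≠ 0 := by
      rw [Ne, Nat.cast_eq_zero]
      omega
    exact mul_ne_zero (pow_ne_zero _ this) (pow_ne_zero _ two_ne_zero)
  have hN1 : (N : ℝ≥0∞) ^ (w - k) * 2 ^ k ≠ ⊤ :=
    ENNReal.mul_ne_top (ENNReal.pow_ne_top (ENNReal.natCast_ne_top N))
      (ENNReal.pow_ne_top ENNReal.ofNat_ne_top)
  set J : Set (Fin w → ℝ) := Set.Icc (fun _ => (1 : ℝ)) (fun _ => (N : ℝ) + 1) with hJ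
  have hJm : MeasurableSet J := measurableSet_Icc
  change (volume.prod volume) (EB B N) ≤ _
  rw [Measure.prod_apply_symm (EB_meas B N), ← lintegral_const_mul' _ _ hN1,
    ← lintegral_indicator hJm]
  refine lintegral_mono fun s => ?_
  by_cases hs : s ∈ J
  · rw [Set.indicator_of_mem hs]
    rcases (vs_nonneg (k := k) s).lt_or_eq with hpos | hzero
    · have h2 : ENNReal.ofReal (2 ^ k / vs k s) = 2 ^ k * (ENNReal.ofReal (vs k s))⁻¹ := by
        rw [ENNReal.ofReal_div_of_pos hpos, div_eq_mul_inv, ENNReal.ofReal_pow (by norm_num)]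
        norm_num
      rw [mul_assoc, ← h2]
      refine le_trans (measure_mono ?_) (slice h1 B N (vs k s) hpos
        (fun j => ∑ i, s i ^ (j.val + 1)))
      rintro t ⟨⟨ht1, -, ht3⟩, ht4⟩
      exact ⟨ht1, ht4, ht3⟩
    · rw [← hzero, ENNReal.ofReal_zero, ENNReal.inv_zero, ENNReal.mul_top hN0]
      exact le_top
  · rw [Set.indicator_of_notMem hs]
    refine le_of_eq ?_
    have : ((fun t : Fin w → ℝ => (t, s)) ⁻¹' (EB B N)) = ∅ := by
      rw [Set.eq_empty_iff_forall_notMem]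
      rintro t ⟨⟨-, ht2, -⟩, -⟩
      exact hs ⟨fun i => (ht2 i).1, fun i => (ht2 i).2⟩
    rw [this, measure_empty]

theorem cover {k w : ℕ} [Nonempty (Fin k ↪ Fin w)] (N : ℕ) :
    EE k w N ⊆ ⋃ B : Fin k ↪ Fin w, (EB B N ∪ Prod.swap ⁻¹' (EB B N)) := by
  intro p hp
  rw [Set.mem_iUnion]
  rcases le_total (vs k p.2) (vs k p.1) with h | h
  · obtain ⟨B, hB⟩ := exists_eq_ciSup_of_finite (f := fun B : Fin k ↪ Fin w =>
      vd (fun i => p.1 (B i)))
    refine ⟨B, Or.inl ⟨hp, ?_⟩⟩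
    change vs k p.2 ≤ vd (fun i => p.1 (B i))
    rw [hB]
    exact h
  · obtain ⟨B, hB⟩ := exists_eq_ciSup_of_finite (f := fun B : Fin k ↪ Fin w =>
      vd (fun i => p.2 (B i)))
    refine ⟨B, Or.inr ⟨⟨hp.2.1, hp.1, fun j => ?_⟩, ?_⟩⟩
    · have := hp.2.2 j
      rw [abs_sub_comm] at this
      exact this
    · change vs k p.1 ≤ vd (fun i => p.2 (B i))
      rw [hB]
      exact h

theorem t_PH3 : T_PH3 := by
  classical
  intro h1 h2 k hk
  obtain ⟨C, hC⟩ := h2 k hk
  set w : ℕ := k * (k + 1) / 2 with hw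
  have hkw : k ≤ w := by
    rw [hw, Nat.le_div_iff_mul_le (by norm_num)]
    nlinarith
  haveI : Nonempty (Fin k ↪ Fin w) := ⟨Fin.castLEEmb hkw⟩
  refine ⟨2 * Fintype.card (Fin k ↪ Fin w) * 2 ^ k * C, by positivity, fun N hN => ?_⟩
  have hB : ∀ B : Fin k ↪ Fin w, volume (EB B N ∪ Prod.swap ⁻¹' (EB B N)) ≤
      2 * (2 ^ k * C * (N : ℝ≥0∞) ^ w) := by
    intro B
    have e1 : volume (Prod.swap ⁻¹' (EB B N)) = volume (EB B N) :=
      Measure.measurePreserving_swap.measure_preimage_equiv (f := MeasurableEquiv.prodComm) _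
    have e2 : volume (EB B N) ≤ 2 ^ k * C * (N : ℝ≥0∞) ^ w := by
      refine (EB_vol h1 B N hN).trans ?_
      refine (mul_le_mul_right (hC N hN) _).trans (le_of_eq ?_)
      have e3 : (N : ℝ≥0∞) ^ w = (N : ℝ≥0∞) ^ (w - k) * (N : ℝ≥0∞) ^ k := by
        rw [← pow_add, Nat.sub_add_cancel hkw]
      rw [e3]
      ring
    refine (measure_union_le _ _).trans ?_
    rw [e1, two_mul]
    exact add_le_add e2 e2
  have hE : volume (EE k w N) ≤
      ENNReal.ofReal (2 * Fintype.card (Fin k ↪ Fin w) * 2 ^ k * C * (N : ℝ) ^ w) := by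
    refine (measure_mono (cover N)).trans ((measure_iUnion_fintype_le _ _).trans ?_)
    refine (Finset.sum_le_sum fun B _ => hB B).trans (le_of_eq ?_)
    rw [Finset.sum_const, Finset.card_univ, nsmul_eq_mul]
    rw [ENNReal.ofReal_mul (by positivity), ENNReal.ofReal_mul (by positivity),
      ENNReal.ofReal_mul (by positivity), ENNReal.ofReal_mul (by positivity),
      ENNReal.ofReal_natCast, ENNReal.ofReal_pow (by positivity), ENNReal.ofReal_pow (by positivity),
      ENNReal.ofReal_natCast, ENNReal.ofReal_coe_nnreal, ENNReal.ofReal_ofNat]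
    ring
  have hreal := ENNReal.toReal_le_of_le_ofReal (by positivity) hE
  exact hreal

end Pool.Agent.U165.VE
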